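import Pool.Agent.N463.HW.Stm

/-!
# HW/SOL: the solution of the free boundary problem
-/

set_option autoImplicit false

namespace Pool.Agent.N386.HW.SOL

open Pool.Agent.N463.HW

/-- evaluation as a continuous linear map -/
noncomputable def evL (h1 : S_EV) (z : ℂ) (hz : ‖z‖ = 1) : W →L[ℝ] ℂ :=
  LinearMap.mkContinuous
    { toFun := ev z
      map_add' := (h1 z hz).1
      map_smul' := fun c w => by
        rw [(h1 z hz).2.1 c w, RingHom.id_apply, Complex.real_smul] } 1 (fun w => by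
      rw [one_mul]
      exact (h1 z hz).2.2.2.2.2.1 w)

theorem evL_apply (h1 : S_EV) (z : ℂ) (hz : ‖z‖ = 1) (w : W) : evL h1 z hz w = ev z w := rfl

/-- the sequence of the coefficients -/
def xs (e : ℝ) (ξ : ℕ → ℝ) : ℕ → ℝ
  | 0 => 0
  | 1 => e
  | (k + 2) => ξ k

theorem sum_xi (ξ : X) : Summable fun n => |ξ n| := by
  have h := lp.memℓp ξ
  rw [memℓp_gen_iff (by norm_num)] at h
  simpa using h

theorem norm_xi (ξ : X) : ‖ξ‖ = ∑' n, |ξ n| := by
  rw [lp.norm_eq_tsum_rpow (by norm_num)]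
  simp

theorem xs_sum (e : ℝ) (ξ : X) : Summable fun k => |xs e ξ k| :=
  (summable_nat_add_iff 2).1 (sum_xi ξ)

theorem xs_tsum (e : ℝ) (he : 0 ≤ e) (ξ : X) : ∑' k, |xs e ξ k| = e + ‖ξ‖ := by
  rw [← (xs_sum e ξ).sum_add_tsum_nat_add 2, norm_xi, Finset.sum_range_succ,
    Finset.sum_range_succ, Finset.sum_range_zero]
  have h0 : xs e ξ 0 = 0 := rfl
  have h1 : xs e ξ 1 = e := rfl
  rw [h0, h1, abs_zero, abs_of_nonneg he]
  simp only [zero_add]
  rfl

section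

variable (τ : ℝ)

/-- the point of the unit circle -/
noncomputable def zt (τ : ℝ) : ℂ := Complex.exp (τ * Complex.I)

theorem zt_norm : ‖zt τ‖ = 1 := Complex.norm_exp_ofReal_mul_I τ

theorem zt_pow (k : ℕ) : zt τ ^ (k : ℤ) = Complex.exp (k * τ * Complex.I) := by
  unfold zt
  rw [zpow_natCast, ← Complex.exp_nat_mul]
  congr 1
  ring

theorem zt_neg (k : ℤ) : zt τ ^ (-k) = (starRingEnd ℂ) (zt τ ^ k) := by
  rw [zpow_neg, map_zpow₀]
  have h : (starRingEnd ℂ) (zt τ) = (zt τ)⁻¹ := by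
    rw [Complex.inv_def, Complex.normSq_eq_norm_sq, zt_norm]
    simp
  rw [h, inv_zpow]

theorem norm_exp_k (k : ℕ) : ‖Complex.exp (k * τ * Complex.I)‖ = 1 := by
  have h := Complex.norm_exp_ofReal_mul_I ((k : ℝ) * τ)
  push_cast at h
  exact h

theorem Gs_eq (e : ℝ) (ξ : X) : Gs (xs e ξ) τ =
    e * zt τ ^ (1 : ℤ) + ∑' n : ℕ, (ξ n : ℂ) * zt τ ^ ((n : ℤ) + 2) := by
  unfold Gs
  have hs : Summable fun k : ℕ => (xs e ξ k : ℂ) * Complex.exp (k * τ * Complex.I) := by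
    refine Summable.of_norm ((xs_sum e ξ).congr fun k => ?_)
    rw [norm_mul, norm_exp_k, mul_one, Complex.norm_real, Real.norm_eq_abs]
  rw [← hs.sum_add_tsum_nat_add 2, Finset.sum_range_succ, Finset.sum_range_succ,
    Finset.sum_range_zero]
  have h0 : xs e ξ 0 = 0 := rfl
  have h1 : xs e ξ 1 = e := rfl
  rw [h0, h1]
  congr 1
  · have := zt_pow τ 1
    rw [Nat.cast_one] at this
    rw [this]
    simp
  · refine tsum_congr fun n => ?_
    have h2 : xs e ξ (n + 2) = ξ n := rfl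
    have h3 : ((n : ℤ) + 2) = ((n + 2 : ℕ) : ℤ) := by push_cast; rfl
    rw [h2, h3, zt_pow]

theorem gs_eq (e : ℝ) (ξ : X) : gs (xs e ξ) τ =
    e * zt τ ^ (1 : ℤ) + ∑' n : ℕ, ((ξ n / ((n : ℝ) + 2) : ℝ) : ℂ) * zt τ ^ ((n : ℤ) + 2) := by
  unfold gs
  have hs : Summable fun k : ℕ => ((xs e ξ k / k : ℝ) : ℂ) * Complex.exp (k * τ * Complex.I) := by
    refine Summable.of_norm_bounded (xs_sum e ξ) fun k => ?_
    rw [norm_mul, norm_exp_k, mul_one, Complex.norm_real, Real.norm_eq_abs, abs_div]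
    rcases Nat.eq_zero_or_pos k with hk | hk
    · subst hk
      simp
    · refine div_le_self (abs_nonneg _) ?_
      rw [abs_of_nonneg (Nat.cast_nonneg k)]
      exact_mod_cast hk
  rw [← hs.sum_add_tsum_nat_add 2, Finset.sum_range_succ, Finset.sum_range_succ,
    Finset.sum_range_zero]
  have h0 : xs e ξ 0 = 0 := rfl
  have h1 : xs e ξ 1 = e := rfl
  rw [h0, h1]
  congr 1
  · have := zt_pow τ 1
    rw [Nat.cast_one] at this
    rw [this]
    simp
  · refine tsum_congr fun n => ?_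
    have h2 : xs e ξ (n + 2) = ξ n := rfl
    have h3 : ((n : ℤ) + 2) = ((n + 2 : ℕ) : ℤ) := by push_cast; rfl
    have h4 : ((n + 2 : ℕ) : ℝ) = (n : ℝ) + 2 := by push_cast; rfl
    rw [h2, h3, zt_pow, h4]

theorem ev_Gp (h1 : S_EV) (e : ℝ) (ξ : X) : ev (zt τ) (Gp e ξ) = Gs (xs e ξ) τ := by
  have hz := zt_norm τ
  have hsum : Summable fun n : ℕ => ξ n • sh ((n : ℤ) + 2) := by
    refine Summable.of_norm_bounded (sum_xi ξ) fun n => ?_
    refine (norm_smul_le _ _).trans ?_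
    have := sh_norm ((n : ℤ) + 2)
    rw [Real.norm_eq_abs]
    exact mul_le_of_le_one_right (abs_nonneg _) this
  unfold Gp
  rw [Gs_eq, ← evL_apply h1 _ hz, map_add, map_smul, ContinuousLinearMap.map_tsum _ hsum,
    evL_apply, (h1 _ hz).2.2.2.2.1, Complex.real_smul]
  congr 1
  refine tsum_congr fun n => ?_
  rw [map_smul, evL_apply, (h1 _ hz).2.2.2.2.1, Complex.real_smul]

theorem ev_Gm (h1 : S_EV) (e : ℝ) (ξ : X) :
    ev (zt τ) (Gm e ξ) = (starRingEnd ℂ) (Gs (xs e ξ) τ) := by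
  have hz := zt_norm τ
  have hsum : Summable fun n : ℕ => ξ n • sh (-((n : ℤ) + 2)) := by
    refine Summable.of_norm_bounded (sum_xi ξ) fun n => ?_
    refine (norm_smul_le _ _).trans ?_
    have := sh_norm (-((n : ℤ) + 2))
    rw [Real.norm_eq_abs]
    exact mul_le_of_le_one_right (abs_nonneg _) this
  unfold Gm
  rw [Gs_eq, ← evL_apply h1 _ hz, map_add, map_smul, ContinuousLinearMap.map_tsum _ hsum,
    evL_apply, (h1 _ hz).2.2.2.2.1, Complex.real_smul, map_add, map_mul, Complex.conj_ofReal,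
    ← zt_neg, Complex.conj_tsum]
  congr 1
  refine tsum_congr fun n => ?_
  rw [map_smul, evL_apply, (h1 _ hz).2.2.2.2.1, Complex.real_smul, map_mul, Complex.conj_ofReal,
    ← zt_neg]

theorem ev_vv (h1 : S_EV) (e : ℝ) (ξ : X) :
    ev (zt τ) (vv e ξ) = ((2 * (gs (xs e ξ) τ).re : ℝ) : ℂ) := by
  have hz := zt_norm τ
  have hle : ∀ n : ℕ, |ξ n / ((n : ℝ) + 2)| ≤ |ξ n| := by
    intro n
    rw [abs_div]
    refine div_le_self (abs_nonneg _) ?_
    have h0 : (0 : ℝ) ≤ n := Nat.cast_nonneg n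
    rw [abs_of_nonneg (by linarith)]
    linarith
  have hb : ∀ n : ℕ, ‖sh ((n : ℤ) + 2) + sh (-((n : ℤ) + 2))‖ ≤ 2 := by
    intro n
    have a1 := sh_norm ((n : ℤ) + 2)
    have a2 := sh_norm (-((n : ℤ) + 2))
    have a3 := norm_add_le (sh ((n : ℤ) + 2)) (sh (-((n : ℤ) + 2)))
    linarith
  have hsum : Summable fun n : ℕ =>
      (ξ n / ((n : ℝ) + 2)) • (sh ((n : ℤ) + 2) + sh (-((n : ℤ) + 2))) := by
    refine Summable.of_norm_bounded ((sum_xi ξ).mul_right 2) fun n => ?_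
    refine (norm_smul_le _ _).trans ?_
    rw [Real.norm_eq_abs]
    exact mul_le_mul (hle n) (hb n) (norm_nonneg _) (abs_nonneg _)
  have hs1 : Summable fun n : ℕ =>
      ((ξ n / ((n : ℝ) + 2) : ℝ) : ℂ) * zt τ ^ ((n : ℤ) + 2) := by
    refine Summable.of_norm_bounded (sum_xi ξ) fun n => ?_
    rw [norm_mul, norm_zpow, hz, one_zpow, mul_one, Complex.norm_real, Real.norm_eq_abs]
    exact hle n
  have hs2 : Summable fun n : ℕ =>
      ((ξ n / ((n : ℝ) + 2) : ℝ) : ℂ) * zt τ ^ (-((n : ℤ) + 2)) := by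
    refine Summable.of_norm_bounded (sum_xi ξ) fun n => ?_
    rw [norm_mul, norm_zpow, hz, one_zpow, mul_one, Complex.norm_real, Real.norm_eq_abs]
    exact hle n
  have h2 : (starRingEnd ℂ) (gs (xs e ξ) τ) = e * zt τ ^ (-1 : ℤ) +
      ∑' n : ℕ, ((ξ n / ((n : ℝ) + 2) : ℝ) : ℂ) * zt τ ^ (-((n : ℤ) + 2)) := by
    rw [gs_eq, map_add, map_mul, Complex.conj_ofReal, ← zt_neg, Complex.conj_tsum]
    congr 1
    refine tsum_congr fun n => ?_
    rw [map_mul, Complex.conj_ofReal, ← zt_neg]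
  rw [← Complex.add_conj, h2, gs_eq]
  unfold vv
  rw [← evL_apply h1 _ hz, map_add, map_smul, ContinuousLinearMap.map_tsum _ hsum, map_add,
    evL_apply, evL_apply, (h1 _ hz).2.2.2.2.1, (h1 _ hz).2.2.2.2.1, Complex.real_smul]
  have h3 : ∑' n : ℕ, evL h1 (zt τ) hz
      ((ξ n / ((n : ℝ) + 2)) • (sh ((n : ℤ) + 2) + sh (-((n : ℤ) + 2)))) =
      ∑' n : ℕ, (((ξ n / ((n : ℝ) + 2) : ℝ) : ℂ) * zt τ ^ ((n : ℤ) + 2) +
        ((ξ n / ((n : ℝ) + 2) : ℝ) : ℂ) * zt τ ^ (-((n : ℤ) + 2))) := by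
    refine tsum_congr fun n => ?_
    rw [map_smul, map_add, evL_apply, evL_apply, (h1 _ hz).2.2.2.2.1, (h1 _ hz).2.2.2.2.1,
      Complex.real_smul]
    ring
  rw [h3, hs1.tsum_add hs2]
  ring

theorem ev_NN (h1 : S_EV) (P e : ℝ) (ξ : X) :
    ev (zt τ) (NN P e ξ) = Complex.exp P * (Complex.exp (-(pp P (xs e ξ) τ : ℂ)) *
      (1 + Gs (xs e ξ) τ + (pp P (xs e ξ) τ : ℂ) * (1 + (starRingEnd ℂ) (Gs (xs e ξ) τ)))) := by
  have hz := zt_norm τ
  have hadd := (h1 _ hz).1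
  have hsm := (h1 _ hz).2.1
  have hmul := (h1 _ hz).2.2.1
  have hone := (h1 _ hz).2.2.2.1
  have hexp := (h1 _ hz).2.2.2.2.2.2
  have hneg : ∀ w : W, ev (zt τ) (-w) = -ev (zt τ) w := fun w => by
    rw [← evL_apply h1 _ hz, map_neg]
    rfl
  have hsub : ∀ u w : W, ev (zt τ) (u - w) = ev (zt τ) u - ev (zt τ) w := fun u w => by
    rw [← evL_apply h1 _ hz, map_sub]
    rfl
  have hpp : (pp P (xs e ξ) τ : ℂ) =
      P * Complex.exp ((2 * (gs (xs e ξ) τ).re : ℝ) : ℂ) := by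
    unfold pp
    push_cast
    rfl
  unfold NN
  rw [hmul, hexp, hneg, hsm, hsub, hexp, hone, hadd, hadd, hone, hmul, hsm, hexp, hadd, hone,
    ev_vv τ h1, ev_Gp τ h1, ev_Gm τ h1, ← mul_assoc (Complex.exp P), ← Complex.exp_add, hpp]
  congr 2
  ring

theorem ev_tsum (w : W) (hw : ∀ k : ℕ, 1 ≤ k → cf (-(k : ℤ)) w = 0) :
    ev (zt τ) w = ∑' k : ℕ, (cf (k : ℤ) w : ℂ) * Complex.exp (k * τ * Complex.I) := by
  unfold ev
  have hinj : Function.Injective (fun k : ℕ => (k : ℤ)) := Nat.cast_injective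
  rw [← hinj.tsum_eq (f := fun n : ℤ => (cf n w : ℂ) * zt τ ^ n)]
  · refine tsum_congr fun k => ?_
    rw [zt_pow]
  · intro n hn
    by_contra hcon
    apply hn
    have h1 : n < 0 := by
      by_contra h2
      exact hcon ⟨n.toNat, Int.toNat_of_nonneg (not_lt.1 h2)⟩
    obtain ⟨k, hk⟩ : ∃ k : ℕ, n = -(k : ℤ) := ⟨(-n).toNat, by omega⟩
    have hk1 : 1 ≤ k := by omega
    show (cf n w : ℂ) * zt τ ^ n = 0
    rw [hk, hw k hk1, Complex.ofReal_zero, zero_mul]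

end

theorem t_SOL (h1 : S_EV) (h2 : S_IFT) : S_SOL := by
  obtain ⟨P, e, ξ, he, he8, hP, hξ, hcf⟩ := h2 (1 / 8) (by norm_num)
  refine ⟨xs e ξ, P, fun k => Complex.exp (-P) * (cf (k : ℤ) (NN P e ξ) : ℂ), ?_, rfl, he.ne',
    xs_sum e ξ, ?_, ?_, ?_⟩
  · have := (abs_lt.1 hP).1
    linarith
  · rw [xs_tsum e he.le]
    linarith
  · have hs := (cf_summable (NN P e ξ)).comp_injective
      (Nat.cast_injective : Function.Injective (fun k : ℕ => (k : ℤ)))
    refine (hs.mul_left ‖Complex.exp (-(P : ℂ))‖).congr fun k => ?_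
    rw [norm_mul, Complex.norm_real, Real.norm_eq_abs]
    rfl
  · intro τ
    have h3 := ev_NN τ h1 P e ξ
    rw [ev_tsum τ _ hcf] at h3
    have h4 : Ns (fun k => Complex.exp (-P) * (cf (k : ℤ) (NN P e ξ) : ℂ)) τ =
        Complex.exp (-P) * ∑' k : ℕ, (cf (k : ℤ) (NN P e ξ) : ℂ) *
          Complex.exp (k * τ * Complex.I) := by
      unfold Ns
      rw [← tsum_mul_left]
      refine tsum_congr fun k => ?_
      ring
    rw [h4, h3, ← mul_assoc, ← Complex.exp_add, neg_add_cancel, Complex.exp_zero, one_mul]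

end Pool.Agent.N386.HW.SOL
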